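import Pool.Agent.H83.VU.Targets

/-!
# The bound for the bilinear sums
-/

set_option autoImplicit false

open Finset Pool.Agent.H83.VU

namespace Pool.Agent.H23.VU

namespace BND

theorem prod_pw (x : ℝ) (k : ℕ) :
    ∏ j : Fin k, x ^ (2 * ((j : ℕ) + 1)) = x ^ (k * (k + 1)) := by
  induction k with
  | zero => simp
  | succ k ih =>
    rw [Fin.prod_univ_castSucc]
    simp only [Fin.val_castSucc, Fin.val_last]
    rw [ih, ← pow_add]
    congr 1
    ring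

/-- the trivial bound -/
theorem other {s Z i : ℕ} {a : ℝ} (hMJ : T_MJ) (hs : 1 ≤ s) (hZ : 1 ≤ Z) :
    MM a (s * Z ^ i) ≤ (Z : ℝ) ^ (2 * i) * (9 * (s : ℝ) ^ 2) := by
  have hs' : (1 : ℝ) ≤ s := by exact_mod_cast hs
  have hZ' : (1 : ℝ) ≤ (Z : ℝ) ^ i := one_le_pow₀ (by exact_mod_cast hZ)
  have h1 := (hMJ a (s * Z ^ i)).1
  push_cast at h1
  have h2 : (1 : ℝ) ≤ s * (Z : ℝ) ^ i := by
    calc (1 : ℝ) = 1 * 1 := by ring
      _ ≤ _ := mul_le_mul hs' hZ' (by norm_num) (by linarith)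
  calc MM a (s * Z ^ i) ≤ (2 * ((s : ℝ) * (Z : ℝ) ^ i) + 1) ^ 2 := h1
    _ ≤ (3 * ((s : ℝ) * (Z : ℝ) ^ i)) ^ 2 := by
      apply pow_le_pow_left₀ (by linarith)
      linarith
    _ = _ := by ring

/-- the saving at the exponent `j` -/
theorem key {k j n s Z : ℕ} {L τ a : ℝ} (hMJ : T_MJ)
    (hj : 1 ≤ j) (hjk : j ≤ k) (hs : 1 ≤ s) (hZ0 : 1 ≤ Z)
    (hZ1 : (Z : ℝ) ≤ Real.exp (2 / 5 * L)) (hZ2 : Real.exp (2 / 5 * L) ≤ 2 * Z)
    (hn1 : Real.exp L ≤ n) (hn2 : (n : ℝ) ≤ 3 * Real.exp L) (hL : 0 ≤ L)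
    (hτ : 1 / 2 ≤ τ) (hj1 : 2 * τ ≤ j) (hj2 : (j : ℝ) ≤ 4 * τ)
    (ha : |a| = Real.exp (τ * L) / (2 * Real.pi * j * (n : ℝ) ^ j))
    (hsL : (s : ℝ) ≤ Real.exp (L / 10)) :
    MM a (s * Z ^ j) ≤ (Z : ℝ) ^ (2 * j) * (Real.exp (-(L / 10)) *
      (3 * s * 2 ^ k + (s + k * L) * (2 * Real.pi * k * 12 ^ k))) := by
  have hπ : 3 < Real.pi := Real.pi_gt_three
  have hj' : (1 : ℝ) ≤ j := by exact_mod_cast hj
  have hs' : (1 : ℝ) ≤ s := by exact_mod_cast hs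
  have hZ' : (1 : ℝ) ≤ Z := by exact_mod_cast hZ0
  have hjk' : (j : ℝ) ≤ k := by exact_mod_cast hjk
  have hk0 : (0 : ℝ) ≤ k := by positivity
  have hn0 : (0 : ℝ) < n := (Real.exp_pos L).trans_le hn1
  have hnj : (0 : ℝ) < (n : ℝ) ^ j := pow_pos hn0 j
  have hden : (0 : ℝ) < 2 * Real.pi * j * (n : ℝ) ^ j := by positivity
  have ha0 : 0 < |a| := by rw [ha]; exact div_pos (Real.exp_pos _) hden
  have hτL : L / 2 ≤ τ * L := by
    have := mul_le_mul_of_nonneg_right hτ hL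
    linarith
  have hjL0 : L ≤ j * L := le_mul_of_one_le_left hL hj'
  have hjL1 : 2 * (τ * L) ≤ j * L := by
    have := mul_le_mul_of_nonneg_right hj1 hL
    linarith
  have hjL2 : j * L ≤ 4 * (τ * L) := by
    have := mul_le_mul_of_nonneg_right hj2 hL
    linarith
  have e1 : Real.exp (j * L) ≤ (n : ℝ) ^ j := by
    rw [Real.exp_nat_mul]
    exact pow_le_pow_left₀ (Real.exp_pos _).le hn1 j
  have e2 : (n : ℝ) ^ j ≤ 3 ^ j * Real.exp (j * L) := by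
    rw [Real.exp_nat_mul, ← mul_pow]
    exact pow_le_pow_left₀ hn0.le hn2 j
  have e3 : (Z : ℝ) ^ j ≤ Real.exp (2 / 5 * (j * L)) := by
    rw [show (2 / 5 * (j * L) : ℝ) = j * (2 / 5 * L) by ring, Real.exp_nat_mul]
    exact pow_le_pow_left₀ (by positivity) hZ1 j
  have e4 : Real.exp (2 / 5 * (j * L)) ≤ 2 ^ j * (Z : ℝ) ^ j := by
    rw [show (2 / 5 * (j * L) : ℝ) = j * (2 / 5 * L) by ring, Real.exp_nat_mul, ← mul_pow]
    exact pow_le_pow_left₀ (Real.exp_pos _).le hZ2 j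
  have hZj : (1 : ℝ) ≤ (Z : ℝ) ^ j := one_le_pow₀ hZ'
  have hsZ : (1 : ℝ) ≤ s * (Z : ℝ) ^ j := by
    calc (1 : ℝ) = 1 * 1 := by ring
      _ ≤ _ := mul_le_mul hs' hZj (by norm_num) (by linarith)
  have hsmall : |a| * ((s * Z ^ j : ℕ) : ℝ) ≤ 1 / 2 := by
    rw [ha, div_mul_eq_mul_div, div_le_iff₀ hden]
    push_cast
    calc Real.exp (τ * L) * ((s : ℝ) * (Z : ℝ) ^ j)
        ≤ Real.exp (τ * L) * (Real.exp (L / 10) * Real.exp (2 / 5 * (j * L))) := by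
          apply mul_le_mul_of_nonneg_left _ (Real.exp_pos _).le
          exact mul_le_mul hsL e3 (by positivity) (Real.exp_pos _).le
      _ = Real.exp (τ * L + (L / 10 + 2 / 5 * (j * L))) := by
          rw [Real.exp_add, Real.exp_add]
      _ ≤ Real.exp (j * L) := by
          apply Real.exp_le_exp.2
          linarith
      _ ≤ (n : ℝ) ^ j := e1
      _ = 1 * (n : ℝ) ^ j := (one_mul _).symm
      _ ≤ (Real.pi * j) * (n : ℝ) ^ j := by
          apply mul_le_mul_of_nonneg_right _ hnj.le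
          calc (1 : ℝ) = 1 * 1 := by ring
            _ ≤ _ := mul_le_mul (by linarith) hj' (by norm_num) (by linarith)
      _ = 1 / 2 * (2 * Real.pi * j * (n : ℝ) ^ j) := by ring
  have h1 := (hMJ a (s * Z ^ j)).2 ha0 (Nat.mul_pos hs (Nat.pow_pos hZ0)) hsmall
  push_cast at h1
  have hcanc : Real.exp (-(L / 10)) * Real.exp (L / 10) = 1 := by
    rw [← Real.exp_add]
    simp
  -- first term
  have t1 : 2 * ((s : ℝ) * (Z : ℝ) ^ j) + 1 ≤
      (Z : ℝ) ^ (2 * j) * (Real.exp (-(L / 10)) * (3 * s * 2 ^ k)) := by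
    have h2 : Real.exp (L / 10) ≤ 2 ^ k * (Z : ℝ) ^ j := by
      calc Real.exp (L / 10) ≤ Real.exp (2 / 5 * (j * L)) := by
            apply Real.exp_le_exp.2
            linarith
        _ ≤ 2 ^ j * (Z : ℝ) ^ j := e4
        _ ≤ 2 ^ k * (Z : ℝ) ^ j := by
            apply mul_le_mul_of_nonneg_right _ (by positivity)
            exact pow_le_pow_right₀ (by norm_num) hjk
    have h3 : (1 : ℝ) ≤ Real.exp (-(L / 10)) * (2 ^ k * (Z : ℝ) ^ j) := by
      calc (1 : ℝ) = Real.exp (-(L / 10)) * Real.exp (L / 10) := hcanc.symm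
        _ ≤ _ := mul_le_mul_of_nonneg_left h2 (Real.exp_pos _).le
    calc 2 * ((s : ℝ) * (Z : ℝ) ^ j) + 1 ≤ 3 * (s * (Z : ℝ) ^ j) * 1 := by linarith
      _ ≤ 3 * (s * (Z : ℝ) ^ j) * (Real.exp (-(L / 10)) * (2 ^ k * (Z : ℝ) ^ j)) :=
          mul_le_mul_of_nonneg_left h3 (by positivity)
      _ = _ := by ring
  -- second term
  have hlog : 1 + Real.log ((s : ℝ) * (Z : ℝ) ^ j) ≤ s + k * L := by
    rw [Real.log_mul (by linarith) (by linarith), Real.log_pow]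
    have h2 : Real.log s ≤ s - 1 := Real.log_le_sub_one_of_pos (by linarith)
    have h3 : Real.log Z ≤ 2 / 5 * L := by
      rw [← Real.log_exp (2 / 5 * L)]
      exact Real.log_le_log (by linarith) hZ1
    have h4 : (j : ℝ) * Real.log Z ≤ j * (2 / 5 * L) := mul_le_mul_of_nonneg_left h3 (by linarith)
    have h5 : (j : ℝ) * L ≤ k * L := mul_le_mul_of_nonneg_right hjk' hL
    linarith
  have hinv : 1 / |a| ≤ (Z : ℝ) ^ (2 * j) * (Real.exp (-(L / 10)) * (2 * Real.pi * k * 12 ^ k)) := by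
    rw [ha, one_div_div, div_le_iff₀ (Real.exp_pos _)]
    have h2 : Real.exp (j * L) ≤ 4 ^ j * (Z : ℝ) ^ (2 * j) * Real.exp (-(L / 10)) * Real.exp (τ * L) := by
      have h3 : Real.exp (2 / 5 * (j * L)) * Real.exp (2 / 5 * (j * L)) ≤
          (2 ^ j * (Z : ℝ) ^ j) * (2 ^ j * (Z : ℝ) ^ j) :=
        mul_le_mul e4 e4 (Real.exp_pos _).le (by positivity)
      have h4 : (2 ^ j * (Z : ℝ) ^ j) * (2 ^ j * (Z : ℝ) ^ j) = 4 ^ j * (Z : ℝ) ^ (2 * j) := by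
        rw [show (4 : ℝ) = 2 * 2 by norm_num, mul_pow, two_mul, pow_add]
        ring
      rw [h4] at h3
      calc Real.exp (j * L) ≤ Real.exp (2 / 5 * (j * L) + 2 / 5 * (j * L) + (-(L / 10) + τ * L)) := by
            apply Real.exp_le_exp.2
            linarith
        _ = Real.exp (2 / 5 * (j * L)) * Real.exp (2 / 5 * (j * L)) *
            (Real.exp (-(L / 10)) * Real.exp (τ * L)) := by
            rw [Real.exp_add, Real.exp_add, Real.exp_add]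
        _ ≤ 4 ^ j * (Z : ℝ) ^ (2 * j) * (Real.exp (-(L / 10)) * Real.exp (τ * L)) :=
            mul_le_mul_of_nonneg_right h3 (by positivity)
        _ = _ := by ring
    have h12 : (12 : ℝ) ^ j ≤ 12 ^ k := pow_le_pow_right₀ (by norm_num) hjk
    have h34 : (3 : ℝ) ^ j * 4 ^ j = 12 ^ j := by
      rw [← mul_pow]
      norm_num
    calc 2 * Real.pi * j * (n : ℝ) ^ j ≤ 2 * Real.pi * k * (3 ^ j * Real.exp (j * L)) := by
          apply mul_le_mul _ e2 hnj.le (by positivity)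
          exact mul_le_mul_of_nonneg_left hjk' (by positivity)
      _ ≤ 2 * Real.pi * k * (3 ^ j *
          (4 ^ j * (Z : ℝ) ^ (2 * j) * Real.exp (-(L / 10)) * Real.exp (τ * L))) := by
          apply mul_le_mul_of_nonneg_left _ (by positivity)
          exact mul_le_mul_of_nonneg_left h2 (by positivity)
      _ = 2 * Real.pi * k * ((3 ^ j * 4 ^ j) *
          ((Z : ℝ) ^ (2 * j) * Real.exp (-(L / 10)) * Real.exp (τ * L))) := by ring
      _ ≤ 2 * Real.pi * k * (12 ^ k *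
          ((Z : ℝ) ^ (2 * j) * Real.exp (-(L / 10)) * Real.exp (τ * L))) := by
          apply mul_le_mul_of_nonneg_left _ (by positivity)
          apply mul_le_mul_of_nonneg_right _ (by positivity)
          rw [h34]
          exact h12
      _ = _ := by ring
  have t2 : (1 + Real.log ((s : ℝ) * (Z : ℝ) ^ j)) / |a| ≤
      (Z : ℝ) ^ (2 * j) * (Real.exp (-(L / 10)) * ((s + k * L) * (2 * Real.pi * k * 12 ^ k))) := by
    rw [div_eq_mul_one_div]
    calc (1 + Real.log ((s : ℝ) * (Z : ℝ) ^ j)) * (1 / |a|) ≤ (s + k * L) *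
          ((Z : ℝ) ^ (2 * j) * (Real.exp (-(L / 10)) * (2 * Real.pi * k * 12 ^ k))) := by
          apply mul_le_mul hlog hinv (by positivity)
          have := mul_nonneg hk0 hL
          linarith
      _ = _ := by ring
  calc MM a (s * Z ^ j) ≤ _ := h1
    _ ≤ (Z : ℝ) ^ (2 * j) * (Real.exp (-(L / 10)) * (3 * s * 2 ^ k)) +
        (Z : ℝ) ^ (2 * j) * (Real.exp (-(L / 10)) *
          ((s + k * L) * (2 * Real.pi * k * 12 ^ k))) := add_le_add t1 t2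
    _ = _ := by ring

/-- the loss at the exponent `j` -/
theorem loss {k s : ℕ} {lam : ℝ} (h1 : 0 ≤ lam) :
    3 * (s : ℝ) * 2 ^ k + (s + k * lam ^ 12) * (2 * Real.pi * k * 12 ^ k) ≤
      Real.exp (3 + 3 * s + 5 * k + 12 * lam) := by
  have e1 : ∀ x : ℝ, x ≤ Real.exp x := fun x => by
    have := Real.add_one_le_exp x
    linarith
  have hs : (s : ℝ) ≤ Real.exp s := e1 _
  have hk : (k : ℝ) ≤ Real.exp k := e1 _
  have hl : lam ^ 12 ≤ Real.exp (12 * lam) := by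
    have h2 := pow_le_pow_left₀ h1 (e1 lam) 12
    rw [← Real.exp_nat_mul] at h2
    exact_mod_cast h2
  have he : (2.7 : ℝ) < Real.exp 1 := by
    have := Real.exp_one_gt_d9
    linarith
  have he3 : (19 : ℝ) < Real.exp 3 := by
    have h3 : Real.exp 3 = Real.exp 1 ^ 3 := by
      rw [← Real.exp_nat_mul]
      norm_num
    rw [h3]
    calc (19 : ℝ) < 2.7 ^ 3 := by norm_num
      _ < _ := pow_lt_pow_left₀ he (by norm_num) (by norm_num)
  have h2k : (2 : ℝ) ^ k ≤ Real.exp k := by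
    have h3 : Real.exp (k : ℝ) = Real.exp 1 ^ k := by
      rw [← Real.exp_nat_mul]
      simp
    rw [h3]
    exact pow_le_pow_left₀ (by norm_num) (by linarith) k
  have h12k : (12 : ℝ) ^ k ≤ Real.exp (3 * k) := by
    have h3 : Real.exp (3 * (k : ℝ)) = Real.exp 3 ^ k := by
      rw [← Real.exp_nat_mul]
      congr 1
      ring
    rw [h3]
    exact pow_le_pow_left₀ (by norm_num) (by linarith) k
  have hπ := Real.pi_lt_d2
  have hπ0 := Real.pi_pos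
  have hs0 : (0 : ℝ) ≤ s := by positivity
  have hk0 : (0 : ℝ) ≤ k := by positivity
  have t1 : 3 * (s : ℝ) * 2 ^ k ≤ Real.exp (3 * s + 5 * k + 12 * lam) := by
    calc 3 * (s : ℝ) * 2 ^ k ≤ Real.exp (3 * s) * Real.exp k :=
          mul_le_mul (e1 _) h2k (by positivity) (Real.exp_pos _).le
      _ = Real.exp (3 * s + k) := (Real.exp_add _ _).symm
      _ ≤ _ := by
          apply Real.exp_le_exp.2
          linarith
  have t2 : (s : ℝ) + k * lam ^ 12 ≤ 2 * Real.exp (s + k + 12 * lam) := by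
    have h3 : (s : ℝ) ≤ Real.exp (s + k + 12 * lam) := hs.trans (by
      apply Real.exp_le_exp.2
      linarith)
    have h4 : (k : ℝ) * lam ^ 12 ≤ Real.exp (s + k + 12 * lam) := by
      calc (k : ℝ) * lam ^ 12 ≤ Real.exp k * Real.exp (12 * lam) :=
            mul_le_mul hk hl (by positivity) (Real.exp_pos _).le
        _ = Real.exp (k + 12 * lam) := (Real.exp_add _ _).symm
        _ ≤ _ := by
            apply Real.exp_le_exp.2
            linarith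
    linarith
  have t3 : 2 * Real.pi * k * 12 ^ k ≤ 2 * Real.pi * (Real.exp (4 * k)) := by
    calc 2 * Real.pi * k * 12 ^ k = 2 * Real.pi * (k * 12 ^ k) := by ring
      _ ≤ 2 * Real.pi * (Real.exp k * Real.exp (3 * k)) := by
          apply mul_le_mul_of_nonneg_left _ (by positivity)
          exact mul_le_mul hk h12k (by positivity) (Real.exp_pos _).le
      _ = _ := by
          rw [← Real.exp_add]
          congr 2
          ring
  have t4 : ((s : ℝ) + k * lam ^ 12) * (2 * Real.pi * k * 12 ^ k) ≤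
      4 * Real.pi * Real.exp (3 * s + 5 * k + 12 * lam) := by
    calc ((s : ℝ) + k * lam ^ 12) * (2 * Real.pi * k * 12 ^ k) ≤
          (2 * Real.exp (s + k + 12 * lam)) * (2 * Real.pi * (Real.exp (4 * k))) :=
          mul_le_mul t2 t3 (by positivity) (by positivity)
      _ = 4 * Real.pi * (Real.exp (s + k + 12 * lam) * Real.exp (4 * k)) := by ring
      _ = 4 * Real.pi * Real.exp (s + k + 12 * lam + 4 * k) := by rw [Real.exp_add _ (4 * (k : ℝ))]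
      _ ≤ _ := by
          apply mul_le_mul_of_nonneg_left _ (by positivity)
          apply Real.exp_le_exp.2
          linarith
  have t5 : 0 < Real.exp (3 * s + 5 * k + 12 * lam) := Real.exp_pos _
  calc 3 * (s : ℝ) * 2 ^ k + (s + k * lam ^ 12) * (2 * Real.pi * k * 12 ^ k) ≤
        Real.exp (3 * s + 5 * k + 12 * lam) +
          4 * Real.pi * Real.exp (3 * s + 5 * k + 12 * lam) := add_le_add t1 t4
    _ = (1 + 4 * Real.pi) * Real.exp (3 * s + 5 * k + 12 * lam) := by ring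
    _ ≤ Real.exp 3 * Real.exp (3 * s + 5 * k + 12 * lam) := by
        apply mul_le_mul_of_nonneg_right _ t5.le
        linarith
    _ = _ := by
        rw [← Real.exp_add]
        congr 1
        ring

/-- the numerical inequality -/
theorem num {C lam k s : ℝ} (hC : 0 < C) (hk0 : 0 ≤ k) (hk : k ≤ 7 * lam) (hs0 : 0 ≤ s)
    (hs : s ≤ 11 * k ^ 3)
    (hlam : 25 * (2 * C * 7 ^ 8 + 9 * 121 * 7 ^ 7 + 3 + 33 * 7 ^ 3 + 35 + 12 + 484 * 7 ^ 6) + 1 ≤ lam) :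
    2 * C * k ^ 8 + 9 * s ^ 2 * k + (3 + 3 * s + 5 * k + 12 * lam) + 4 * s ^ 2 * lam ^ 4 ≤
      2 / 25 * lam ^ 12 := by
  obtain ⟨A, hA⟩ : ∃ A : ℝ, A = 2 * C * 7 ^ 8 + 9 * 121 * 7 ^ 7 + 3 + 33 * 7 ^ 3 + 35 + 12 +
    484 * 7 ^ 6 := ⟨_, rfl⟩
  rw [← hA] at hlam
  have hA0 : 0 < A := by rw [hA]; positivity
  have hl1 : 1 ≤ lam := by linarith
  have hl0 : 0 ≤ lam := by linarith
  have hp : ∀ m : ℕ, m ≤ 10 → lam ^ m ≤ lam ^ 10 := fun m hm => pow_le_pow_right₀ hl1 hm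
  have hk8 : k ^ 8 ≤ 7 ^ 8 * lam ^ 10 := by
    calc k ^ 8 ≤ (7 * lam) ^ 8 := pow_le_pow_left₀ hk0 hk 8
      _ = 7 ^ 8 * lam ^ 8 := by ring
      _ ≤ _ := mul_le_mul_of_nonneg_left (hp 8 (by norm_num)) (by norm_num)
  have hs3 : s ≤ 11 * (7 ^ 3 * lam ^ 3) := by
    calc s ≤ 11 * k ^ 3 := hs
      _ ≤ 11 * (7 * lam) ^ 3 := by
          apply mul_le_mul_of_nonneg_left _ (by norm_num)
          exact pow_le_pow_left₀ hk0 hk 3
      _ = _ := by ring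
  have hs2 : s ^ 2 ≤ 121 * 7 ^ 6 * lam ^ 6 := by
    calc s ^ 2 ≤ (11 * (7 ^ 3 * lam ^ 3)) ^ 2 := pow_le_pow_left₀ hs0 hs3 2
      _ = _ := by ring
  have t1 : 2 * C * k ^ 8 ≤ 2 * C * 7 ^ 8 * lam ^ 10 := by
    calc 2 * C * k ^ 8 ≤ 2 * C * (7 ^ 8 * lam ^ 10) := mul_le_mul_of_nonneg_left hk8 (by positivity)
      _ = _ := by ring
  have t2 : 9 * s ^ 2 * k ≤ 9 * 121 * 7 ^ 7 * lam ^ 10 := by
    calc 9 * s ^ 2 * k ≤ 9 * (121 * 7 ^ 6 * lam ^ 6) * (7 * lam) := by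
          apply mul_le_mul _ hk hk0 (by positivity)
          exact mul_le_mul_of_nonneg_left hs2 (by norm_num)
      _ = 9 * 121 * 7 ^ 7 * lam ^ 7 := by ring
      _ ≤ _ := mul_le_mul_of_nonneg_left (hp 7 (by norm_num)) (by norm_num)
  have t3 : 3 * s ≤ 33 * 7 ^ 3 * lam ^ 10 := by
    calc 3 * s ≤ 3 * (11 * (7 ^ 3 * lam ^ 3)) := by linarith
      _ = 33 * 7 ^ 3 * lam ^ 3 := by ring
      _ ≤ _ := mul_le_mul_of_nonneg_left (hp 3 (by norm_num)) (by norm_num)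
  have t0 : lam ≤ lam ^ 10 := by
    have := hp 1 (by norm_num)
    rwa [pow_one] at this
  have t00 : 1 ≤ lam ^ 10 := one_le_pow₀ hl1
  have t4 : 4 * s ^ 2 * lam ^ 4 ≤ 484 * 7 ^ 6 * lam ^ 10 := by
    calc 4 * s ^ 2 * lam ^ 4 ≤ 4 * (121 * 7 ^ 6 * lam ^ 6) * lam ^ 4 := by
          apply mul_le_mul_of_nonneg_right _ (by positivity)
          exact mul_le_mul_of_nonneg_left hs2 (by norm_num)
      _ = _ := by ring
  have t5 : 5 * k ≤ 35 * lam ^ 10 := by linarith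
  have t6 : 12 * lam ≤ 12 * lam ^ 10 := by linarith
  have hsum : 2 * C * k ^ 8 + 9 * s ^ 2 * k + (3 + 3 * s + 5 * k + 12 * lam) +
      4 * s ^ 2 * lam ^ 4 ≤ A * lam ^ 10 := by
    rw [hA]
    linarith
  have h2 : A ≤ 2 / 25 * lam ^ 2 := by
    have h3 : lam * 1 ≤ lam * lam := mul_le_mul_of_nonneg_left hl1 hl0
    have h4 : 2 / 25 * lam ≤ 2 / 25 * lam ^ 2 := by
      rw [pow_two]
      linarith
    linarith
  calc _ ≤ A * lam ^ 10 := hsum
    _ ≤ 2 / 25 * lam ^ 2 * lam ^ 10 := mul_le_mul_of_nonneg_right h2 (by positivity)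
    _ = _ := by ring

/-- the powers of `Z` -/
theorem zpows {Z s k : ℕ} (hZ : 1 ≤ Z) (hs : 1 ≤ s) (x : ℝ)
    (hx : x = 2 * (s : ℝ) - (k : ℝ) * (k + 1) / 2 + 1 / 40) :
    (Z : ℝ) ^ (8 * s ^ 2 - 4 * s) * ((Z : ℝ) ^ x) ^ 2 * (Z : ℝ) ^ (k * (k + 1)) =
      (Z : ℝ) ^ (8 * s ^ 2) * (Z : ℝ) ^ (1 / 20 : ℝ) := by
  have hZ0 : (0 : ℝ) < Z := by exact_mod_cast hZ
  have h1 : 4 * s ≤ 8 * s ^ 2 := by nlinarith
  rw [← Real.rpow_natCast (Z : ℝ) (8 * s ^ 2 - 4 * s), ← Real.rpow_natCast (Z : ℝ) (k * (k + 1)),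
    ← Real.rpow_natCast (Z : ℝ) (8 * s ^ 2), ← Real.rpow_natCast ((Z : ℝ) ^ x) 2,
    ← Real.rpow_mul hZ0.le, ← Real.rpow_add hZ0, ← Real.rpow_add hZ0, ← Real.rpow_add hZ0]
  congr 1
  push_cast [Nat.cast_sub h1]
  rw [hx]
  ring

end BND

open BND in
theorem pf_BND (hBIL : T_BIL) (hMV2 : T_MV2) (hMJ : T_MJ) : T_BND := by
  obtain ⟨C, hC, hMV⟩ := hMV2
  obtain ⟨A, hA⟩ : ∃ A : ℝ, A = 2 * C * 7 ^ 8 + 9 * 121 * 7 ^ 7 + 3 + 33 * 7 ^ 3 + 35 + 12 +
    484 * 7 ^ 6 := ⟨_, rfl⟩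
  have hA0 : 0 < A := by rw [hA]; positivity
  refine ⟨⌈Real.exp ((25 * A + 1) ^ 12)⌉₊, fun N n hN hn1 hn2 u hu1 hu2 => ?_⟩
  have hNr : Real.exp ((25 * A + 1) ^ 12) ≤ N :=
    (Nat.le_ceil _).trans (by exact_mod_cast hN)
  have hN0 : (0 : ℝ) < N := (Real.exp_pos _).trans_le hNr
  have hu0 : 0 < |u| := (Real.rpow_pos_of_pos hN0 _).trans_le hu1
  obtain ⟨L, hLdef⟩ : ∃ L : ℝ, L = Real.log N := ⟨_, rfl⟩
  have hexpL : Real.exp L = N := by rw [hLdef, Real.exp_log hN0]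
  have hL12 : (25 * A + 1) ^ 12 ≤ L := by
    rw [hLdef, ← Real.log_exp ((25 * A + 1) ^ 12)]
    exact Real.log_le_log (Real.exp_pos _) hNr
  rw [← hLdef] at hu2 ⊢
  have hL0 : 0 < L := lt_of_lt_of_le (by positivity) hL12
  obtain ⟨lam, hlam⟩ : ∃ lam : ℝ, lam = L ^ (1 / 12 : ℝ) := ⟨_, rfl⟩
  have hlam0 : 0 < lam := by rw [hlam]; exact Real.rpow_pos_of_pos hL0 _
  have hlam12 : lam ^ 12 = L := by
    rw [hlam, ← Real.rpow_natCast, ← Real.rpow_mul hL0.le]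
    norm_num
  have hlam4 : L ^ (1 / 3 : ℝ) = lam ^ 4 := by
    rw [hlam, ← Real.rpow_natCast (L ^ (1 / 12 : ℝ)), ← Real.rpow_mul hL0.le]
    norm_num
  have hlam13 : L ^ (13 / 12 : ℝ) = L * lam := by
    rw [hlam]
    nth_rw 2 [← Real.rpow_one L]
    rw [← Real.rpow_add hL0]
    norm_num
  have hlamA : 25 * A + 1 ≤ lam := by
    have h1 : (25 * A + 1) ^ 12 ≤ lam ^ 12 := by rw [hlam12]; exact hL12
    exact (pow_le_pow_iff_left₀ (by positivity) hlam0.le (by norm_num)).1 h1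
  have hlam1 : 1 ≤ lam := by linarith
  have hLlam : lam ≤ L := by
    rw [← hlam12]
    calc lam = lam ^ 1 := (pow_one _).symm
      _ ≤ _ := pow_le_pow_right₀ hlam1 (by norm_num)
  rw [hlam4]
  rw [hlam13] at hu2
  -- the size of u
  obtain ⟨τ, hτdef⟩ : ∃ τ : ℝ, τ = Real.log |u| / L := ⟨_, rfl⟩
  have hτL : τ * L = Real.log |u| := by rw [hτdef]; field_simp
  have hexpu : Real.exp (τ * L) = |u| := by rw [hτL, Real.exp_log hu0]
  have hτ1 : 1 / 2 ≤ τ := by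
    rw [hτdef, le_div_iff₀ hL0]
    have h1 := Real.log_le_log (Real.rpow_pos_of_pos hN0 _) hu1
    rw [Real.log_rpow hN0, ← hLdef] at h1
    exact h1
  have hτ2 : τ ≤ lam := by
    rw [hτdef, div_le_iff₀ hL0]
    have h1 := Real.log_le_log hu0 hu2
    rw [Real.log_exp] at h1
    linarith
  rw [show 5 * Real.log |u| / L = 5 * τ by rw [hτdef]; ring]
  obtain ⟨k, hkdef⟩ : ∃ k : ℕ, k = ⌊5 * τ⌋₊ + 2 := ⟨_, rfl⟩
  rw [← hkdef]
  have hk1 : (k : ℝ) ≤ 5 * τ + 2 := by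
    have h1 := Nat.floor_le (show 0 ≤ 5 * τ by linarith)
    rw [hkdef]
    push_cast
    linarith
  have hk2 : 5 * τ + 1 < k := by
    have h1 := Nat.lt_floor_add_one (5 * τ)
    rw [hkdef]
    push_cast
    linarith
  have hk7 : (k : ℝ) ≤ 7 * lam := by linarith
  have hk2' : 2 ≤ k := by omega
  have hk1r : (1 : ℝ) ≤ k := by linarith
  -- the number of variables
  obtain ⟨s, hsdef⟩ : ∃ s : ℕ, s = (10 * k ^ 2 + 1) * k := ⟨_, rfl⟩
  have hs1 : 1 ≤ s := by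
    rw [hsdef]
    exact Nat.mul_pos (by omega) (by omega)
  have hsr : (s : ℝ) = (10 * (k : ℝ) ^ 2 + 1) * k := by
    rw [hsdef]
    push_cast
    ring
  have hs11 : (s : ℝ) ≤ 11 * (k : ℝ) ^ 3 := by
    rw [hsr]
    have : (k : ℝ) ≤ (k : ℝ) ^ 3 := by
      calc (k : ℝ) = (k : ℝ) ^ 1 := (pow_one _).symm
        _ ≤ _ := pow_le_pow_right₀ hk1r (by norm_num)
    have h2 : (10 * (k : ℝ) ^ 2 + 1) * k = 10 * (k : ℝ) ^ 3 + k := by ring
    linarith
  have hnum := num (s := s) (k := k) hC (by positivity) hk7 (by positivity) hs11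
    (by rw [← hA]; exact hlamA)
  rw [hlam12] at hnum
  have hsL : (s : ℝ) ≤ Real.exp (L / 10) := by
    have h0 : 0 ≤ 2 * C * (k : ℝ) ^ 8 + 9 * (s : ℝ) ^ 2 * k := by positivity
    have h00 : 0 ≤ 4 * (s : ℝ) ^ 2 * lam ^ 4 := by positivity
    have h1 : (s : ℝ) ≤ L / 10 := by linarith
    have h2 := Real.add_one_le_exp (L / 10)
    linarith
  -- the length
  obtain ⟨Z, hZdef⟩ : ∃ Z : ℕ, Z = ⌊(N : ℝ) ^ (2 / 5 : ℝ)⌋₊ := ⟨_, rfl⟩
  rw [← hZdef]
  have hNZ : (N : ℝ) ^ (2 / 5 : ℝ) = Real.exp (2 / 5 * L) := by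
    rw [← hexpL, ← Real.exp_mul]
    congr 1
    ring
  rw [hNZ] at hZdef
  have hZ1 : (Z : ℝ) ≤ Real.exp (2 / 5 * L) := by
    rw [hZdef]
    exact Nat.floor_le (Real.exp_pos _).le
  have hZ3 : (2 : ℝ) ≤ Real.exp (2 / 5 * L) := by
    have h1 := Real.add_one_le_exp (2 / 5 * L)
    have h2 : A ≥ 3 := by
      rw [hA]
      have : 0 < 2 * C * 7 ^ 8 := by positivity
      linarith
    linarith
  have hZ2 : Real.exp (2 / 5 * L) ≤ 2 * Z := by
    have h1 := Nat.lt_floor_add_one (Real.exp (2 / 5 * L))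
    rw [← hZdef] at h1
    linarith
  have hZr : (1 : ℝ) ≤ Z := by linarith
  have hZ0 : 1 ≤ Z := by exact_mod_cast hZr
  -- the special exponent
  obtain ⟨j, hjdef⟩ : ∃ j : ℕ, j = ⌈2 * τ⌉₊ := ⟨_, rfl⟩
  have hj1 : 2 * τ ≤ j := by rw [hjdef]; exact Nat.le_ceil _
  have hj2 : (j : ℝ) < 2 * τ + 1 := by
    rw [hjdef]
    exact Nat.ceil_lt_add_one (by linarith)
  have hj0 : 1 ≤ j := by
    have : (1 : ℝ) ≤ j := by linarith
    exact_mod_cast this
  have hjk : j ≤ k := by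
    have : (j : ℝ) < k := by linarith
    exact_mod_cast this.le
  have hnr1 : Real.exp L ≤ n := by rw [hexpL]; exact_mod_cast hn1
  have hnr2 : (n : ℝ) ≤ 3 * Real.exp L := by rw [hexpL]; exact_mod_cast hn2
  obtain ⟨i₀, hi₀⟩ : ∃ i₀ : Fin k, (i₀ : ℕ) + 1 = j := ⟨⟨j - 1, by omega⟩, by
    show j - 1 + 1 = j
    omega⟩
  have hkey : MM (tc k u n i₀) (s * Z ^ ((i₀ : ℕ) + 1)) ≤ (Z : ℝ) ^ (2 * ((i₀ : ℕ) + 1)) *
      (Real.exp (-(L / 10)) * (3 * s * 2 ^ k + (s + k * L) * (2 * Real.pi * k * 12 ^ k))) := by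
    rw [hi₀]
    apply key hMJ hj0 hjk hs1 hZ0 hZ1 hZ2 hnr1 hnr2 hL0.le hτ1 hj1 (by linarith) _ hsL
    rw [hexpu]
    unfold tc
    have hn0 : (0 : ℝ) < n := (Real.exp_pos L).trans_le hnr1
    have h1 : ((i₀ : ℕ) : ℝ) + 1 = j := by exact_mod_cast hi₀
    rw [h1, hi₀, abs_div, abs_mul, abs_pow, abs_neg, abs_one, one_pow, one_mul]
    congr 1
    apply abs_of_pos
    have hjr : (0 : ℝ) < j := by exact_mod_cast hj0
    positivity
  obtain ⟨G, hG⟩ : ∃ G : ℝ, G = 3 * (s : ℝ) * 2 ^ k + (s + k * L) * (2 * Real.pi * k * 12 ^ k) :=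
    ⟨_, rfl⟩
  have hG0 : 0 ≤ G := by
    rw [hG]
    have := Real.pi_pos
    positivity
  have hGe : G ≤ Real.exp (3 + 3 * s + 5 * k + 12 * lam) := by
    have h1 := loss (k := k) (s := s) hlam0.le
    rw [hlam12] at h1
    rw [hG]
    exact h1
  rw [← hG] at hkey
  have h9 : (1 : ℝ) ≤ 9 * (s : ℝ) ^ 2 := by
    have h1 : (1 : ℝ) ≤ s := by exact_mod_cast hs1
    have h2 : (1 : ℝ) ≤ (s : ℝ) ^ 2 := one_le_pow₀ h1
    linarith
  have hMM0 : ∀ (a : ℝ) (l : ℕ), 0 ≤ MM a l := fun a l => by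
    unfold MM
    exact sum_nonneg fun _ _ => norm_nonneg _
  have hprod : ∏ i : Fin k, MM (tc k u n i) (s * Z ^ ((i : ℕ) + 1)) ≤
      (Z : ℝ) ^ (k * (k + 1)) * ((9 * (s : ℝ) ^ 2) ^ k * (Real.exp (-(L / 10)) * G)) := by
    calc ∏ i : Fin k, MM (tc k u n i) (s * Z ^ ((i : ℕ) + 1)) ≤
          ∏ i : Fin k, ((Z : ℝ) ^ (2 * ((i : ℕ) + 1)) * ((9 * (s : ℝ) ^ 2) *
            (if i = i₀ then Real.exp (-(L / 10)) * G else 1))) := by
          apply prod_le_prod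
          · intro i _
            exact hMM0 _ _
          · intro i _
            by_cases hi : i = i₀
            · rw [if_pos hi, hi]
              refine hkey.trans ?_
              apply mul_le_mul_of_nonneg_left _ (by positivity)
              have h0 : 0 ≤ Real.exp (-(L / 10)) * G := by positivity
              exact le_mul_of_one_le_left h0 h9
            · rw [if_neg hi, mul_one]
              exact other hMJ hs1 hZ0
      _ = _ := by
          rw [prod_mul_distrib, prod_pw, prod_mul_distrib, prod_const, prod_ite_eq' univ i₀]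
          simp
  -- the mean value
  obtain ⟨x, hx⟩ : ∃ x : ℝ, x = 2 * (s : ℝ) - (k : ℝ) * (k + 1) / 2 + 1 / 40 := ⟨_, rfl⟩
  have hJ : (J s k Z : ℝ) ≤ Real.exp (C * (k : ℝ) ^ 8) * (Z : ℝ) ^ x := by
    have h1 := hMV k Z hk2' hZ0
    rw [← hsdef, ← hsr, ← hx] at h1
    exact h1
  have hJ2 : (J s k Z : ℝ) ^ 2 ≤ Real.exp (2 * C * (k : ℝ) ^ 8) * ((Z : ℝ) ^ x) ^ 2 := by
    calc (J s k Z : ℝ) ^ 2 ≤ (Real.exp (C * (k : ℝ) ^ 8) * (Z : ℝ) ^ x) ^ 2 :=
          pow_le_pow_left₀ (by positivity) hJ 2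
      _ = _ := by
          rw [mul_pow, ← Real.exp_nat_mul]
          congr 2
          push_cast
          ring
  have hZ20 : (Z : ℝ) ^ (1 / 20 : ℝ) ≤ Real.exp (L / 50) := by
    calc (Z : ℝ) ^ (1 / 20 : ℝ) ≤ Real.exp (2 / 5 * L) ^ (1 / 20 : ℝ) :=
          Real.rpow_le_rpow (by positivity) hZ1 (by norm_num)
      _ = _ := by
          rw [← Real.exp_mul]
          congr 1
          ring
  have hs9 : (9 * (s : ℝ) ^ 2) ^ k ≤ Real.exp (9 * (s : ℝ) ^ 2 * k) := by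
    rw [mul_comm (9 * (s : ℝ) ^ 2) (k : ℝ), Real.exp_nat_mul]
    apply pow_le_pow_left₀ (by positivity)
    have := Real.add_one_le_exp (9 * (s : ℝ) ^ 2)
    linarith
  have h4s : 4 * s ^ 2 ≠ 0 := by positivity
  rw [← pow_le_pow_iff_left₀ (norm_nonneg _) (by positivity) h4s]
  calc ‖BB (tc k u n) Z‖ ^ (4 * s ^ 2) ≤ (Z : ℝ) ^ (8 * s ^ 2 - 4 * s) * (J s k Z : ℝ) ^ 2 *
        ∏ j : Fin k, MM (tc k u n j) (s * Z ^ ((j : ℕ) + 1)) := hBIL k s Z _ hs1 hZ0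
    _ ≤ (Z : ℝ) ^ (8 * s ^ 2 - 4 * s) * (Real.exp (2 * C * (k : ℝ) ^ 8) * ((Z : ℝ) ^ x) ^ 2) *
        ((Z : ℝ) ^ (k * (k + 1)) * ((9 * (s : ℝ) ^ 2) ^ k * (Real.exp (-(L / 10)) * G))) := by
        apply mul_le_mul _ hprod (prod_nonneg fun _ _ => hMM0 _ _) (by positivity)
        exact mul_le_mul_of_nonneg_left hJ2 (by positivity)
    _ = ((Z : ℝ) ^ (8 * s ^ 2 - 4 * s) * ((Z : ℝ) ^ x) ^ 2 * (Z : ℝ) ^ (k * (k + 1))) *
        (Real.exp (2 * C * (k : ℝ) ^ 8) * ((9 * (s : ℝ) ^ 2) ^ k *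
          (Real.exp (-(L / 10)) * G))) := by ring
    _ = (Z : ℝ) ^ (8 * s ^ 2) * ((Z : ℝ) ^ (1 / 20 : ℝ) *
        (Real.exp (2 * C * (k : ℝ) ^ 8) * ((9 * (s : ℝ) ^ 2) ^ k *
          (Real.exp (-(L / 10)) * G)))) := by
        rw [zpows hZ0 hs1 x hx]
        ring
    _ ≤ (Z : ℝ) ^ (8 * s ^ 2) * (Real.exp (L / 50) *
        (Real.exp (2 * C * (k : ℝ) ^ 8) * (Real.exp (9 * (s : ℝ) ^ 2 * k) *
          (Real.exp (-(L / 10)) * Real.exp (3 + 3 * s + 5 * k + 12 * lam))))) := by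
        gcongr
    _ = (Z : ℝ) ^ (8 * s ^ 2) * Real.exp (L / 50 + (2 * C * (k : ℝ) ^ 8 + (9 * (s : ℝ) ^ 2 * k +
        (-(L / 10) + (3 + 3 * s + 5 * k + 12 * lam))))) := by
        rw [Real.exp_add (L / 50), Real.exp_add (2 * C * (k : ℝ) ^ 8),
          Real.exp_add (9 * (s : ℝ) ^ 2 * k), Real.exp_add (-(L / 10))]
    _ ≤ (Z : ℝ) ^ (8 * s ^ 2) * Real.exp (-(4 * (s : ℝ) ^ 2 * lam ^ 4)) := by
        apply mul_le_mul_of_nonneg_left _ (by positivity)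
        apply Real.exp_le_exp.2
        linarith
    _ = _ := by
        rw [mul_pow, ← pow_mul, ← Real.exp_nat_mul]
        congr 2
        · ring
        · push_cast
          ring

end Pool.Agent.H23.VU
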