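import Pool.Agent.H83.VU.Targets

/-!
# The mean value theorem of Vinogradov, uniform in the degree
-/

set_option autoImplicit false

open Finset Pool.Agent.H83.VU

namespace Pool.Agent.H23.VU

theorem J_triv (T k N : ℕ) : (J T k N : ℝ) ≤ (N : ℝ) ^ (2 * T) := by
  have h : J T k N ≤ N ^ (2 * T) := by
    unfold J rr
    refine (card_filter_le _ _).trans ?_
    rw [card_product, card_vec]
    have h1 : (Icc 1 (N : ℤ)).card = N := by simp
    rw [h1, two_mul, pow_add]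
  exact_mod_cast h

section eta

variable {k : ℕ}

theorem base_bounds (hk : 2 ≤ k) : 0 ≤ 1 - 1 / (k : ℝ) ∧ 1 - 1 / (k : ℝ) ≤ 1 := by
  have hk' : (2 : ℝ) ≤ k := by exact_mod_cast hk
  have h1 : 1 / (k : ℝ) ≤ 1 := by
    rw [div_le_one (by linarith)]
    linarith
  have h2 : 0 ≤ 1 / (k : ℝ) := by positivity
  constructor <;> linarith

theorem eta_nonneg (hk : 2 ≤ k) (m : ℕ) : 0 ≤ eta k m := by
  unfold eta
  have h := (base_bounds hk).1
  positivity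

theorem eta_le (hk : 2 ≤ k) (m : ℕ) : eta k m ≤ (k : ℝ) * (k + 1) / 2 := by
  unfold eta
  have h := pow_le_one₀ (n := m) (base_bounds hk).1 (base_bounds hk).2
  have h0 : (0 : ℝ) ≤ (k : ℝ) * (k + 1) / 2 := by positivity
  calc (k * (k + 1) / 2 : ℝ) * (1 - 1 / (k : ℝ)) ^ m ≤ (k * (k + 1) / 2 : ℝ) * 1 :=
        mul_le_mul_of_nonneg_left h h0
    _ = _ := mul_one _

theorem eta_succ (hk : 2 ≤ k) (m : ℕ) : eta k (m + 1) = eta k m - eta k m / k := by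
  have hk0 : (k : ℝ) ≠ 0 := by
    have : (2 : ℝ) ≤ k := by exact_mod_cast hk
    linarith
  unfold eta
  rw [pow_succ]
  field_simp

theorem eta_lower (hk : 2 ≤ k) (m : ℕ) :
    (k : ℝ) * (k + 1) / 2 - (k + 1) / 2 * m ≤ eta k m := by
  have hk' : (2 : ℝ) ≤ k := by exact_mod_cast hk
  have hk0 : (k : ℝ) ≠ 0 := by linarith
  unfold eta
  have h1 := one_add_mul_le_pow (a := -(1 / (k : ℝ))) (by
    have h2 := (base_bounds hk).1
    linarith) m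
  have h3 : (1 : ℝ) + -(1 / (k : ℝ)) = 1 - 1 / k := by ring
  rw [h3] at h1
  have h0 : (0 : ℝ) ≤ (k : ℝ) * (k + 1) / 2 := by positivity
  have h4 := mul_le_mul_of_nonneg_left h1 h0
  have h5 : (k : ℝ) * (k + 1) / 2 * (1 + m * -(1 / (k : ℝ))) =
      (k : ℝ) * (k + 1) / 2 - (k + 1) / 2 * m := by
    field_simp
    ring
  rw [h5] at h4
  exact h4

end eta

/-- the exponent -/
noncomputable def Ex (k m : ℕ) : ℝ := 2 * ((m : ℝ) + 1) * k - (k : ℝ) * (k + 1) / 2 + eta k m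

theorem Ex_zero (k : ℕ) : Ex k 0 = 2 * k := by
  unfold Ex eta
  push_cast
  ring

theorem Ex_succ {k : ℕ} (hk : 2 ≤ k) (m : ℕ) :
    Ex k (m + 1) = Ex k m + 2 * k - eta k m / k := by
  unfold Ex
  rw [eta_succ hk]
  push_cast
  ring

theorem Ex_lower {k : ℕ} (hk : 2 ≤ k) (m : ℕ) : 2 * (k : ℝ) ≤ Ex k m := by
  have hk' : (2 : ℝ) ≤ k := by exact_mod_cast hk
  have h := eta_lower hk m
  have hm : (0 : ℝ) ≤ m := Nat.cast_nonneg m
  unfold Ex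
  nlinarith

theorem Ex_upper {k : ℕ} (hk : 2 ≤ k) (m : ℕ) : Ex k m ≤ 2 * ((m : ℝ) + 1) * k := by
  have h := eta_le hk m
  unfold Ex
  linarith

theorem two_le_exp : (2 : ℝ) ≤ Real.exp 1 := by
  have := Real.add_one_le_exp (1 : ℝ)
  linarith

theorem self_le_exp (x : ℝ) : x ≤ Real.exp x := by
  have := Real.add_one_le_exp x
  linarith

/-- powers of `k` are bounded by its sixth power -/
theorem pow_bounds {x : ℝ} (hx : 2 ≤ x) : 1 ≤ x ^ 6 ∧ x ≤ x ^ 6 ∧ x ^ 2 ≤ x ^ 6 ∧ x ^ 3 ≤ x ^ 6 ∧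
    x ^ 4 ≤ x ^ 6 ∧ x ^ 5 ≤ x ^ 6 := by
  have h1 : (1 : ℝ) ≤ x := by linarith
  refine ⟨one_le_pow₀ h1, ?_, pow_le_pow_right₀ h1 (by norm_num), pow_le_pow_right₀ h1 (by norm_num),
    pow_le_pow_right₀ h1 (by norm_num), pow_le_pow_right₀ h1 (by norm_num)⟩
  calc x = x ^ 1 := (pow_one x).symm
    _ ≤ x ^ 6 := pow_le_pow_right₀ h1 (by norm_num)

theorem tri_cast (k : ℕ) : ((k * (k - 1) / 2 : ℕ) : ℝ) = (k : ℝ) * (k - 1) / 2 := by
  rcases Nat.eq_zero_or_pos k with h | h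
  · subst h
    simp
  · rw [Nat.cast_div_charZero (even_iff_two_dvd.1 (Nat.even_mul_pred_self k))]
    rw [Nat.cast_mul, Nat.cast_sub h]
    push_cast
    ring

theorem step_one {k m : ℕ} (hk : 2 ≤ k) {X : ℝ} (hX : 1 ≤ X) :
    16 * ((k : ℝ) ^ ((m + 1) * k + k) * X ^ (k - 1)) ^ 2 ≤
      Real.exp (48 * (k : ℝ) ^ 6) ^ (m + 2) / 2 * X ^ Ex k (m + 1) := by
  have hk' : (2 : ℝ) ≤ k := by exact_mod_cast hk
  obtain ⟨p0, p1, p2, p3, p4, p5⟩ := pow_bounds hk'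
  have hX0 : 0 < X := by linarith
  have h1 : (X ^ (k - 1)) ^ 2 ≤ X ^ Ex k (m + 1) := by
    rw [← pow_mul, ← Real.rpow_natCast]
    apply Real.rpow_le_rpow_of_exponent_le hX
    have h2 := Ex_lower hk (m + 1)
    have h3 : (((k - 1) * 2 : ℕ) : ℝ) ≤ 2 * k := by
      have h4 : (k - 1) * 2 ≤ 2 * k := by omega
      exact_mod_cast h4
    linarith
  have h2 : 32 * ((k : ℝ) ^ ((m + 1) * k + k)) ^ 2 ≤ Real.exp (48 * (k : ℝ) ^ 6) ^ (m + 2) := by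
    have h3 : ((k : ℝ) ^ ((m + 1) * k + k)) ^ 2 = ((k : ℝ) ^ (2 * k)) ^ (m + 2) := by
      rw [← pow_mul, ← pow_mul]
      congr 1
      ring
    rw [h3]
    have h4 : (k : ℝ) ^ (2 * k) ≤ Real.exp (2 * (k : ℝ) ^ 2) := by
      calc (k : ℝ) ^ (2 * k) ≤ Real.exp k ^ (2 * k) :=
            pow_le_pow_left₀ (by positivity) (self_le_exp _) _
        _ = Real.exp (2 * (k : ℝ) ^ 2) := by
            rw [← Real.exp_nat_mul]
            congr 1
            push_cast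
            ring
    have h5 : (32 : ℝ) ≤ Real.exp 5 := by
      calc (32 : ℝ) = 2 ^ 5 := by norm_num
        _ ≤ Real.exp 1 ^ 5 := pow_le_pow_left₀ (by norm_num) two_le_exp 5
        _ = Real.exp 5 := by
            rw [← Real.exp_nat_mul]
            norm_num
    calc 32 * ((k : ℝ) ^ (2 * k)) ^ (m + 2) ≤ 32 ^ (m + 2) * ((k : ℝ) ^ (2 * k)) ^ (m + 2) := by
          apply mul_le_mul_of_nonneg_right _ (by positivity)
          calc (32 : ℝ) = 32 ^ 1 := by norm_num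
            _ ≤ 32 ^ (m + 2) := pow_le_pow_right₀ (by norm_num) (by omega)
      _ = (32 * (k : ℝ) ^ (2 * k)) ^ (m + 2) := (mul_pow _ _ _).symm
      _ ≤ Real.exp (48 * (k : ℝ) ^ 6) ^ (m + 2) := by
          apply pow_le_pow_left₀ (by positivity)
          calc 32 * (k : ℝ) ^ (2 * k) ≤ Real.exp 5 * Real.exp (2 * (k : ℝ) ^ 2) :=
                mul_le_mul h5 h4 (by positivity) (Real.exp_pos _).le
            _ = Real.exp (5 + 2 * (k : ℝ) ^ 2) := (Real.exp_add _ _).symm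
            _ ≤ _ := Real.exp_le_exp.2 (by linarith)
  calc 16 * ((k : ℝ) ^ ((m + 1) * k + k) * X ^ (k - 1)) ^ 2 =
        (32 * ((k : ℝ) ^ ((m + 1) * k + k)) ^ 2) / 2 * (X ^ (k - 1)) ^ 2 := by ring
    _ ≤ Real.exp (48 * (k : ℝ) ^ 6) ^ (m + 2) / 2 * X ^ Ex k (m + 1) := by
        apply mul_le_mul _ h1 (by positivity) (by positivity)
        linarith

theorem const_bound {k m : ℕ} (hk : 2 ≤ k) (hm : m + 1 ≤ 10 * k ^ 2) :
    4 * (((((m + 1) * k : ℕ) : ℝ) + k) ^ (2 * k) * (k : ℝ) ^ 3 * (k.factorial : ℝ) *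
      (2 : ℝ) ^ Ex k m * (2 : ℝ) ^ (((k : ℝ) ^ 3 + 1) * (k : ℝ) ^ 2)) ≤
      Real.exp (48 * (k : ℝ) ^ 6) := by
  have hk' : (2 : ℝ) ≤ k := by exact_mod_cast hk
  obtain ⟨p0, p1, p2, p3, p4, p5⟩ := pow_bounds hk'
  have hm' : (m : ℝ) + 1 ≤ 10 * (k : ℝ) ^ 2 := by exact_mod_cast hm
  have h1 : ((((m + 1) * k : ℕ) : ℝ) + k) ^ (2 * k) ≤ Real.exp (22 * (k : ℝ) ^ 4) := by
    have h2 : (((m + 1) * k : ℕ) : ℝ) + k ≤ 11 * (k : ℝ) ^ 3 := by
      push_cast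
      nlinarith [mul_le_mul_of_nonneg_right hm' (by linarith : (0 : ℝ) ≤ k)]
    calc ((((m + 1) * k : ℕ) : ℝ) + k) ^ (2 * k) ≤ Real.exp (11 * (k : ℝ) ^ 3) ^ (2 * k) :=
          pow_le_pow_left₀ (by positivity) (h2.trans (self_le_exp _)) _
      _ = Real.exp (22 * (k : ℝ) ^ 4) := by
          rw [← Real.exp_nat_mul]
          congr 1
          push_cast
          ring
  have h2 : (k : ℝ) ^ 3 ≤ Real.exp ((k : ℝ) ^ 3) := self_le_exp _
  have h3 : (k.factorial : ℝ) ≤ Real.exp ((k : ℝ) ^ 2) := by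
    calc (k.factorial : ℝ) ≤ (k : ℝ) ^ k := by exact_mod_cast Nat.factorial_le_pow k
      _ ≤ Real.exp k ^ k := pow_le_pow_left₀ (by positivity) (self_le_exp _) _
      _ = Real.exp ((k : ℝ) ^ 2) := by
          rw [← Real.exp_nat_mul]
          congr 1
          ring
  have h4 : ∀ y : ℝ, 0 ≤ y → (2 : ℝ) ^ y ≤ Real.exp y := by
    intro y hy
    calc (2 : ℝ) ^ y ≤ Real.exp 1 ^ y := Real.rpow_le_rpow (by norm_num) two_le_exp hy
      _ = Real.exp y := by rw [← Real.exp_mul, one_mul]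
  have hE0 : 0 ≤ Ex k m := by
    have := Ex_lower hk m
    linarith
  have h5 : (2 : ℝ) ^ Ex k m ≤ Real.exp (20 * (k : ℝ) ^ 3) := by
    refine (h4 _ hE0).trans (Real.exp_le_exp.2 ?_)
    have h6 := Ex_upper hk m
    nlinarith [mul_le_mul_of_nonneg_right hm' (by linarith : (0 : ℝ) ≤ k)]
  have h6 : (2 : ℝ) ^ (((k : ℝ) ^ 3 + 1) * (k : ℝ) ^ 2) ≤
      Real.exp (((k : ℝ) ^ 3 + 1) * (k : ℝ) ^ 2) := h4 _ (by positivity)
  have h7 : (4 : ℝ) ≤ Real.exp 2 := by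
    calc (4 : ℝ) = 2 ^ 2 := by norm_num
      _ ≤ Real.exp 1 ^ 2 := pow_le_pow_left₀ (by norm_num) two_le_exp 2
      _ = Real.exp 2 := by
          rw [← Real.exp_nat_mul]
          norm_num
  calc 4 * (((((m + 1) * k : ℕ) : ℝ) + k) ^ (2 * k) * (k : ℝ) ^ 3 * (k.factorial : ℝ) *
        (2 : ℝ) ^ Ex k m * (2 : ℝ) ^ (((k : ℝ) ^ 3 + 1) * (k : ℝ) ^ 2)) ≤
      Real.exp 2 * (Real.exp (22 * (k : ℝ) ^ 4) * Real.exp ((k : ℝ) ^ 3) * Real.exp ((k : ℝ) ^ 2) *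
        Real.exp (20 * (k : ℝ) ^ 3) * Real.exp (((k : ℝ) ^ 3 + 1) * (k : ℝ) ^ 2)) := by
        gcongr
    _ = Real.exp (2 + (22 * (k : ℝ) ^ 4 + (k : ℝ) ^ 3 + (k : ℝ) ^ 2 + 20 * (k : ℝ) ^ 3 +
        ((k : ℝ) ^ 3 + 1) * (k : ℝ) ^ 2)) := by
        simp only [← Real.exp_add]
    _ ≤ Real.exp (48 * (k : ℝ) ^ 6) := by
        apply Real.exp_le_exp.2
        have h8 : ((k : ℝ) ^ 3 + 1) * (k : ℝ) ^ 2 = (k : ℝ) ^ 5 + (k : ℝ) ^ 2 := by ring
        rw [h8]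
        linarith

theorem step_two {k m : ℕ} (hk : 2 ≤ k) (hm : m + 1 ≤ 10 * k ^ 2) {N p : ℕ} (hN : 1 ≤ N)
    (hp : 1 ≤ p) (hpN : p ≤ N) (hp2 : (p : ℝ) ≤ 2 ^ (k ^ 3 + 1) * (N : ℝ) ^ (1 / (k : ℝ)))
    {A : ℝ} (hA : A = Real.exp (48 * (k : ℝ) ^ 6))
    (hJ : (J ((m + 1) * k) k (N / p + 1) : ℝ) ≤ A ^ (m + 1) * ((N / p + 1 : ℕ) : ℝ) ^ Ex k m) :
    2 * ((((m + 1) * k : ℕ) : ℝ) + k) ^ (2 * k) * (k : ℝ) ^ 3 *
        ((p : ℝ) ^ (2 * ((m + 1) * k)) * ((N : ℝ) ^ k * ((k.factorial : ℝ) *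
          (p : ℝ) ^ (k * (k - 1) / 2))) * J ((m + 1) * k) k (N / p + 1)) ≤
      A ^ (m + 2) / 2 * (N : ℝ) ^ Ex k (m + 1) := by
  have hk' : (2 : ℝ) ≤ k := by exact_mod_cast hk
  have hkpos : (0 : ℝ) < k := by linarith
  have hX1 : (1 : ℝ) ≤ N := by exact_mod_cast hN
  have hX0 : (0 : ℝ) < N := by linarith
  have hp1 : (1 : ℝ) ≤ p := by exact_mod_cast hp
  have hp0 : (0 : ℝ) < p := by linarith
  have hpN' : (p : ℝ) ≤ N := by exact_mod_cast hpN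
  have hE0 : 0 ≤ Ex k m := by
    have := Ex_lower hk m
    linarith
  have hApos : 0 < A := by rw [hA]; exact Real.exp_pos _
  have heta := eta_le hk m
  have heta0 := eta_nonneg hk m
  -- the value of `M`
  have hM : ((N / p + 1 : ℕ) : ℝ) ≤ 2 * N / p := by
    have h1 : ((N / p : ℕ) : ℝ) ≤ N / p := Nat.cast_div_le
    have h2 : (1 : ℝ) ≤ N / p := by
      rw [le_div_iff₀ hp0]
      linarith
    push_cast
    have h3 : 2 * (N : ℝ) / p = N / p + N / p := by ring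
    rw [h3]
    linarith
  have hM2 : ((N / p + 1 : ℕ) : ℝ) ^ Ex k m ≤
      (2 : ℝ) ^ Ex k m * (N : ℝ) ^ Ex k m * (p : ℝ) ^ (-Ex k m) := by
    calc ((N / p + 1 : ℕ) : ℝ) ^ Ex k m ≤ (2 * N / p) ^ Ex k m :=
          Real.rpow_le_rpow (by positivity) hM hE0
      _ = (2 : ℝ) ^ Ex k m * (N : ℝ) ^ Ex k m * (p : ℝ) ^ (-Ex k m) := by
          rw [Real.div_rpow (by positivity) hp0.le, Real.mul_rpow (by norm_num) hX0.le,
            Real.rpow_neg hp0.le, div_eq_mul_inv]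
  -- powers of `p`
  have hpp : (p : ℝ) ^ (2 * ((m + 1) * k)) * (p : ℝ) ^ (k * (k - 1) / 2) * (p : ℝ) ^ (-Ex k m) ≤
      (2 : ℝ) ^ (((k : ℝ) ^ 3 + 1) * (k : ℝ) ^ 2) * (N : ℝ) ^ ((k : ℝ) - eta k m / k) := by
    have hexp0 : 0 ≤ (k : ℝ) ^ 2 - eta k m := by nlinarith
    have e1 : (p : ℝ) ^ (2 * ((m + 1) * k)) * (p : ℝ) ^ (k * (k - 1) / 2) * (p : ℝ) ^ (-Ex k m) =
        (p : ℝ) ^ ((k : ℝ) ^ 2 - eta k m) := by
      rw [← Real.rpow_natCast (p : ℝ) (2 * ((m + 1) * k)),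
        ← Real.rpow_natCast (p : ℝ) (k * (k - 1) / 2), ← Real.rpow_add hp0, ← Real.rpow_add hp0,
        tri_cast]
      congr 1
      unfold Ex
      push_cast
      ring
    rw [e1]
    calc (p : ℝ) ^ ((k : ℝ) ^ 2 - eta k m) ≤
          (2 ^ (k ^ 3 + 1) * (N : ℝ) ^ (1 / (k : ℝ))) ^ ((k : ℝ) ^ 2 - eta k m) :=
          Real.rpow_le_rpow hp0.le hp2 hexp0
      _ = (2 : ℝ) ^ (((k : ℝ) ^ 3 + 1) * ((k : ℝ) ^ 2 - eta k m)) *
          (N : ℝ) ^ ((k : ℝ) - eta k m / k) := by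
          rw [Real.mul_rpow (by positivity) (by positivity), ← Real.rpow_mul hX0.le,
            ← Real.rpow_natCast (2 : ℝ) (k ^ 3 + 1), ← Real.rpow_mul (by norm_num)]
          congr 2
          · push_cast
            ring
          · field_simp
      _ ≤ (2 : ℝ) ^ (((k : ℝ) ^ 3 + 1) * (k : ℝ) ^ 2) * (N : ℝ) ^ ((k : ℝ) - eta k m / k) := by
          apply mul_le_mul_of_nonneg_right _ (by positivity)
          apply Real.rpow_le_rpow_of_exponent_le (by norm_num)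
          have h1 : (0 : ℝ) ≤ (k : ℝ) ^ 3 + 1 := by positivity
          nlinarith
  have hcb := const_bound hk hm
  rw [← hA] at hcb
  have hfin : (N : ℝ) ^ k * (N : ℝ) ^ Ex k m * (N : ℝ) ^ ((k : ℝ) - eta k m / k) =
      (N : ℝ) ^ Ex k (m + 1) := by
    rw [← Real.rpow_natCast (N : ℝ) k, ← Real.rpow_add hX0, ← Real.rpow_add hX0, Ex_succ hk]
    congr 1
    ring
  calc 2 * ((((m + 1) * k : ℕ) : ℝ) + k) ^ (2 * k) * (k : ℝ) ^ 3 *
        ((p : ℝ) ^ (2 * ((m + 1) * k)) * ((N : ℝ) ^ k * ((k.factorial : ℝ) *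
          (p : ℝ) ^ (k * (k - 1) / 2))) * J ((m + 1) * k) k (N / p + 1)) ≤
      2 * ((((m + 1) * k : ℕ) : ℝ) + k) ^ (2 * k) * (k : ℝ) ^ 3 *
        ((p : ℝ) ^ (2 * ((m + 1) * k)) * ((N : ℝ) ^ k * ((k.factorial : ℝ) *
          (p : ℝ) ^ (k * (k - 1) / 2))) * (A ^ (m + 1) *
          ((2 : ℝ) ^ Ex k m * (N : ℝ) ^ Ex k m * (p : ℝ) ^ (-Ex k m)))) := by
        apply mul_le_mul_of_nonneg_left _ (by positivity)
        apply mul_le_mul_of_nonneg_left _ (by positivity)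
        exact hJ.trans (mul_le_mul_of_nonneg_left hM2 (by positivity))
    _ = (2 * ((((m + 1) * k : ℕ) : ℝ) + k) ^ (2 * k) * (k : ℝ) ^ 3 * (k.factorial : ℝ) *
          (2 : ℝ) ^ Ex k m * A ^ (m + 1) * ((N : ℝ) ^ k * (N : ℝ) ^ Ex k m)) *
        ((p : ℝ) ^ (2 * ((m + 1) * k)) * (p : ℝ) ^ (k * (k - 1) / 2) * (p : ℝ) ^ (-Ex k m)) := by
        ring
    _ ≤ (2 * ((((m + 1) * k : ℕ) : ℝ) + k) ^ (2 * k) * (k : ℝ) ^ 3 * (k.factorial : ℝ) *
          (2 : ℝ) ^ Ex k m * A ^ (m + 1) * ((N : ℝ) ^ k * (N : ℝ) ^ Ex k m)) *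
        ((2 : ℝ) ^ (((k : ℝ) ^ 3 + 1) * (k : ℝ) ^ 2) * (N : ℝ) ^ ((k : ℝ) - eta k m / k)) :=
        mul_le_mul_of_nonneg_left hpp (by positivity)
    _ = (4 * (((((m + 1) * k : ℕ) : ℝ) + k) ^ (2 * k) * (k : ℝ) ^ 3 * (k.factorial : ℝ) *
          (2 : ℝ) ^ Ex k m * (2 : ℝ) ^ (((k : ℝ) ^ 3 + 1) * (k : ℝ) ^ 2))) / 2 * A ^ (m + 1) *
        ((N : ℝ) ^ k * (N : ℝ) ^ Ex k m * (N : ℝ) ^ ((k : ℝ) - eta k m / k)) := by
        ring
    _ ≤ A / 2 * A ^ (m + 1) *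
        ((N : ℝ) ^ k * (N : ℝ) ^ Ex k m * (N : ℝ) ^ ((k : ℝ) - eta k m / k)) := by
        apply mul_le_mul_of_nonneg_right _ (by positivity)
        apply mul_le_mul_of_nonneg_right _ (by positivity)
        linarith
    _ = A ^ (m + 2) / 2 * (N : ℝ) ^ Ex k (m + 1) := by
        rw [hfin]
        ring

theorem main_induction (hREC : T_REC) {k : ℕ} (hk : 2 ≤ k) (m : ℕ) : m ≤ 10 * k ^ 2 →
    ∀ N : ℕ, 1 ≤ N → (J ((m + 1) * k) k N : ℝ) ≤
      Real.exp (48 * (k : ℝ) ^ 6) ^ (m + 1) * (N : ℝ) ^ Ex k m := by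
  have hk' : (2 : ℝ) ≤ k := by exact_mod_cast hk
  obtain ⟨p0, p1, p2, p3, p4, p5⟩ := pow_bounds hk'
  have hA1 : 1 ≤ Real.exp (48 * (k : ℝ) ^ 6) := by
    apply Real.one_le_exp
    positivity
  induction m with
  | zero =>
    intro _ N hN
    have hX1 : (1 : ℝ) ≤ N := by exact_mod_cast hN
    have h1 := J_triv ((0 + 1) * k) k N
    have h2 : (N : ℝ) ^ (2 * ((0 + 1) * k)) = (N : ℝ) ^ Ex k 0 := by
      rw [Ex_zero, ← Real.rpow_natCast]
      congr 1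
      push_cast
      ring
    rw [h2] at h1
    calc (J ((0 + 1) * k) k N : ℝ) ≤ 1 * (N : ℝ) ^ Ex k 0 := by rw [one_mul]; exact h1
      _ ≤ _ := by
        apply mul_le_mul_of_nonneg_right _ (by positivity)
        exact one_le_pow₀ hA1
  | succ m ih =>
    intro hm N hN
    have hX1 : (1 : ℝ) ≤ N := by exact_mod_cast hN
    have hX0 : (0 : ℝ) < N := by linarith
    have hT : (m + 1 + 1) * k = (m + 1) * k + k := by ring
    by_cases hbig : 2 ^ (2 * k ^ 3 + 2 * k) ≤ N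
    · have hs : 1 ≤ (m + 1) * k := Nat.mul_pos (by omega) (by omega)
      obtain ⟨p, hp, hpN, hp2, hmain⟩ := hREC k ((m + 1) * k) N hk hs hbig
      have hJ := ih (by omega) (N / p + 1) (Nat.le_add_left 1 _)
      have h2 := step_two hk hm hN hp.one_lt.le hpN hp2 rfl hJ
      have h1 := step_one (m := m) hk hX1
      rw [hT]
      calc (J ((m + 1) * k + k) k N : ℝ) ≤ _ := hmain
        _ ≤ Real.exp (48 * (k : ℝ) ^ 6) ^ (m + 2) / 2 * (N : ℝ) ^ Ex k (m + 1) +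
            Real.exp (48 * (k : ℝ) ^ 6) ^ (m + 2) / 2 * (N : ℝ) ^ Ex k (m + 1) :=
            add_le_add h1 h2
        _ = _ := by ring
    · have hlt : (N : ℝ) ≤ 2 ^ (2 * k ^ 3 + 2 * k) := by exact_mod_cast (not_le.1 hbig).le
      have h1 := J_triv ((m + 1 + 1) * k) k N
      have heta := eta_le hk (m + 1)
      have heta0 := eta_nonneg hk (m + 1)
      have h2 : (N : ℝ) ^ (2 * ((m + 1 + 1) * k)) =
          (N : ℝ) ^ Ex k (m + 1) * (N : ℝ) ^ ((k : ℝ) * (k + 1) / 2 - eta k (m + 1)) := by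
        rw [← Real.rpow_add hX0, ← Real.rpow_natCast]
        congr 1
        unfold Ex
        push_cast
        ring
      have h3 : (N : ℝ) ^ ((k : ℝ) * (k + 1) / 2 - eta k (m + 1)) ≤
          Real.exp (48 * (k : ℝ) ^ 6) := by
        calc (N : ℝ) ^ ((k : ℝ) * (k + 1) / 2 - eta k (m + 1)) ≤ (N : ℝ) ^ ((k : ℝ) ^ 2) := by
              apply Real.rpow_le_rpow_of_exponent_le hX1
              nlinarith
          _ ≤ (Real.exp (2 * (k : ℝ) ^ 3 + 2 * k)) ^ ((k : ℝ) ^ 2) := by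
              apply Real.rpow_le_rpow hX0.le _ (by positivity)
              calc (N : ℝ) ≤ 2 ^ (2 * k ^ 3 + 2 * k) := hlt
                _ ≤ Real.exp 1 ^ (2 * k ^ 3 + 2 * k) :=
                    pow_le_pow_left₀ (by norm_num) two_le_exp _
                _ = Real.exp (2 * (k : ℝ) ^ 3 + 2 * k) := by
                    rw [← Real.exp_nat_mul]
                    congr 1
                    push_cast
                    ring
          _ = Real.exp ((2 * (k : ℝ) ^ 3 + 2 * k) * (k : ℝ) ^ 2) := (Real.exp_mul _ _).symm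
          _ ≤ _ := by
              apply Real.exp_le_exp.2
              have h8 : (2 * (k : ℝ) ^ 3 + 2 * k) * (k : ℝ) ^ 2 =
                  2 * (k : ℝ) ^ 5 + 2 * (k : ℝ) ^ 3 := by ring
              rw [h8]
              linarith
      calc (J ((m + 1 + 1) * k) k N : ℝ) ≤ (N : ℝ) ^ Ex k (m + 1) *
            (N : ℝ) ^ ((k : ℝ) * (k + 1) / 2 - eta k (m + 1)) := by rw [← h2]; exact h1
        _ ≤ (N : ℝ) ^ Ex k (m + 1) * Real.exp (48 * (k : ℝ) ^ 6) :=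
            mul_le_mul_of_nonneg_left h3 (by positivity)
        _ ≤ (N : ℝ) ^ Ex k (m + 1) * Real.exp (48 * (k : ℝ) ^ 6) ^ (m + 1 + 1) := by
            apply mul_le_mul_of_nonneg_left _ (by positivity)
            exact le_self_pow₀ hA1 (by omega)
        _ = _ := mul_comm _ _

theorem pf_MVT (hREC : T_REC) : T_MVT := by
  refine ⟨528, by norm_num, ?_⟩
  intro k r N hk hr hr2 hN
  have hk' : (2 : ℝ) ≤ k := by exact_mod_cast hk
  have hX1 : (1 : ℝ) ≤ N := by exact_mod_cast hN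
  obtain ⟨m, rfl⟩ : ∃ m, r = m + 1 := ⟨r - 1, by omega⟩
  have h1 := main_induction hREC hk m (by omega) N hN
  rw [Nat.add_sub_cancel]
  have h2 : Ex k m = 2 * ((m + 1 : ℕ) : ℝ) * k - (k : ℝ) * (k + 1) / 2 + eta k m := by
    unfold Ex
    push_cast
    ring
  rw [← h2]
  refine h1.trans ?_
  apply mul_le_mul_of_nonneg_right _ (by positivity)
  rw [← Real.exp_nat_mul]
  apply Real.exp_le_exp.2
  have hm' : ((m + 1 : ℕ) : ℝ) ≤ 11 * (k : ℝ) ^ 2 := by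
    have h3 : m + 1 ≤ 11 * k ^ 2 := by
      have : 1 ≤ k ^ 2 := Nat.one_le_pow _ _ (by omega)
      omega
    exact_mod_cast h3
  calc ((m + 1 : ℕ) : ℝ) * (48 * (k : ℝ) ^ 6) ≤ 11 * (k : ℝ) ^ 2 * (48 * (k : ℝ) ^ 6) :=
        mul_le_mul_of_nonneg_right hm' (by positivity)
    _ = 528 * (k : ℝ) ^ 8 := by ring

end Pool.Agent.H23.VU
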